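import Mathlib
import Pool.Agent.H200Z.CliqueDefs
import Pool.Agent.H200Z.CliqueH1

set_option autoImplicit false

namespace Pool.Agent.Results.MP_c7efa6_co.FPPNotCollapsing

open Pool.Agent.H200Z.Clique

/-- There is a finite ordered set with the fixed point property all of whose iterated clique
graphs have at least two vertices. -/
theorem result : ∃ (P : Type) (_ : PartialOrder P), Finite P ∧ Nonempty P ∧
    (∀ f : P → P, Monotone f → ∃ x, f x = x) ∧ ∀ n : ℕ, 2 ≤ iterCard P n :=
  ⟨P11, inferInstance, inferInstance, ⟨⟨0⟩⟩, fpp, two_le⟩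

end Pool.Agent.Results.MP_c7efa6_co.FPPNotCollapsing
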